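import Mathlib

set_option autoImplicit false

/-!
Closed geodesic nets on the round 3-sphere and unit vector flows.
-/

namespace Pool.Agent.Results.MP_a226eb_gt.UnitFlow

open scoped RealInnerProductSpace

/-- Euclidean 4-space; the round 3-sphere is its unit sphere. -/
abbrev R4 : Type := EuclideanSpace ℝ (Fin 4)

/-- Euclidean 3-space. -/
abbrev R3 : Type := EuclideanSpace ℝ (Fin 3)

/-- A multigraph with vertex set `V` and edge set `E`: the edge `e` joins `src e` and `tgt e`.
Loops and parallel edges are allowed; the orientation of each edge is arbitrary. -/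
structure MGraph (V E : Type) where
  src : E → V
  tgt : E → V

/-- The point at time `t` of the unit speed geodesic of the unit 3-sphere which starts at `x` with
velocity `d` (for orthogonal unit vectors `x`, `d`). -/
noncomputable def geo (x d : R4) (t : ℝ) : R4 := Real.cos t • x + Real.sin t • d

/-- The velocity at time `t` of the geodesic `geo x d`. -/
noncomputable def vel (x d : R4) (t : ℝ) : R4 := (-Real.sin t) • x + Real.cos t • d

/-- A geodesic net with balanced vertices on the round 3-sphere modelled on `G`; edges are allowed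
to cross and vertices may coincide (a closed geodesic net is one without these). The vertex `v` is placed at the point `p v` of the sphere, the edge `e` is the geodesic
arc of length `len e > 0` which starts at `p (src e)` with unit velocity `dir e` and ends at
`p (tgt e)`, and at every vertex the sum of the unit tangent vectors of the incident edges,
directed away from the vertex, is zero. -/
structure IsBalanced {V E : Type} [Fintype E] [DecidableEq V] (G : MGraph V E) (p : V → R4)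
    (dir : E → R4) (len : E → ℝ) : Prop where
  on_sphere : ∀ v, ‖p v‖ = 1
  unit_dir : ∀ e, ‖dir e‖ = 1
  tangent : ∀ e, ⟪p (G.src e), dir e⟫ = 0
  len_pos : ∀ e, 0 < len e
  ends : ∀ e, geo (p (G.src e)) (dir e) (len e) = p (G.tgt e)
  balanced : ∀ v, (∑ e with G.src e = v, dir e)
    + (∑ e with G.tgt e = v, -vel (p (G.src e)) (dir e) (len e)) = 0

/-- The set of the edges joining `S` to its complement. -/
def cut {V E : Type} (G : MGraph V E) (S : Set V) : Set E :=
  {e | ¬ (G.src e ∈ S ↔ G.tgt e ∈ S)}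

/-- A unit vector flow in `ℝ³` (an `S²`-flow): a unit vector for every (oriented) edge such that at
every vertex the sum over the outgoing edges equals the sum over the incoming edges. -/
def IsUnitFlow {V E : Type} [Fintype E] [DecidableEq V] (G : MGraph V E) (u : E → R3) : Prop :=
  (∀ e, ‖u e‖ = 1) ∧ ∀ v, ∑ e with G.src e = v, u e = ∑ e with G.tgt e = v, u e

/-- The plane in `ℝ⁴` spanned by `x` and `d`; it cuts the sphere in the great circle through `x` with
direction `d`. -/
def plane (x d : R4) : Submodule ℝ R4 := Submodule.span ℝ {x, d}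

/-- components of `d` in the left invariant frame at `x` -/
def uL (x d : R4) : R3 :=
  !₂[-x 1 * d 0 + x 0 * d 1 - x 3 * d 2 + x 2 * d 3,
     -x 2 * d 0 + x 3 * d 1 + x 0 * d 2 - x 1 * d 3,
     -x 3 * d 0 - x 2 * d 1 + x 1 * d 2 + x 0 * d 3]

/-- components of `d` in the right invariant frame at `x` -/
def uR (x d : R4) : R3 :=
  !₂[-x 1 * d 0 + x 0 * d 1 + x 3 * d 2 - x 2 * d 3,
     -x 2 * d 0 - x 3 * d 1 + x 0 * d 2 + x 1 * d 3,
     -x 3 * d 0 + x 2 * d 1 - x 1 * d 2 + x 0 * d 3]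

theorem normsq4 (x : R4) : ‖x‖ ^ 2 = x 0 ^ 2 + x 1 ^ 2 + x 2 ^ 2 + x 3 ^ 2 := by
  rw [EuclideanSpace.norm_sq_eq, Fin.sum_univ_four]
  simp [Real.norm_eq_abs, sq_abs]

theorem normsq3 (x : R3) : ‖x‖ ^ 2 = x 0 ^ 2 + x 1 ^ 2 + x 2 ^ 2 := by
  rw [EuclideanSpace.norm_sq_eq, Fin.sum_univ_three]
  simp [Real.norm_eq_abs, sq_abs]

theorem inner4 (x d : R4) : ⟪x, d⟫ = x 0 * d 0 + x 1 * d 1 + x 2 * d 2 + x 3 * d 3 := by
  rw [PiLp.inner_apply, Fin.sum_univ_four]
  simp [mul_comm]

theorem norm_uL (x d : R4) : ‖uL x d‖ ^ 2 = ‖x‖ ^ 2 * ‖d‖ ^ 2 - ⟪x, d⟫ ^ 2 := by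
  rw [normsq3, normsq4, normsq4, inner4]
  simp only [uL, PiLp.toLp_apply, Matrix.cons_val_zero, Matrix.cons_val_one, Matrix.cons_val]
  ring

theorem norm_uR (x d : R4) : ‖uR x d‖ ^ 2 = ‖x‖ ^ 2 * ‖d‖ ^ 2 - ⟪x, d⟫ ^ 2 := by
  rw [normsq3, normsq4, normsq4, inner4]
  simp only [uR, PiLp.toLp_apply, Matrix.cons_val_zero, Matrix.cons_val_one, Matrix.cons_val]
  ring

theorem uL_geo (x d : R4) (t : ℝ) : uL (geo x d t) (vel x d t) = uL x d := by
  have h := Real.sin_sq_add_cos_sq t
  ext i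
  fin_cases i <;>
  simp only [uL, geo, vel, PiLp.toLp_apply, Matrix.cons_val_zero, Matrix.cons_val_one,
    Matrix.cons_val, PiLp.add_apply, PiLp.smul_apply, smul_eq_mul, Fin.zero_eta, Fin.mk_one,
    Fin.reduceFinMk]
  · linear_combination (-x 1 * d 0 + x 0 * d 1 - x 3 * d 2 + x 2 * d 3) * h
  · linear_combination (-x 2 * d 0 + x 3 * d 1 + x 0 * d 2 - x 1 * d 3) * h
  · linear_combination (-x 3 * d 0 - x 2 * d 1 + x 1 * d 2 + x 0 * d 3) * h

theorem uR_geo (x d : R4) (t : ℝ) : uR (geo x d t) (vel x d t) = uR x d := by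
  have h := Real.sin_sq_add_cos_sq t
  ext i
  fin_cases i <;>
  simp only [uR, geo, vel, PiLp.toLp_apply, Matrix.cons_val_zero, Matrix.cons_val_one,
    Matrix.cons_val, PiLp.add_apply, PiLp.smul_apply, smul_eq_mul, Fin.zero_eta, Fin.mk_one,
    Fin.reduceFinMk]
  · linear_combination (-x 1 * d 0 + x 0 * d 1 + x 3 * d 2 - x 2 * d 3) * h
  · linear_combination (-x 2 * d 0 - x 3 * d 1 + x 0 * d 2 + x 1 * d 3) * h
  · linear_combination (-x 3 * d 0 + x 2 * d 1 - x 1 * d 2 + x 0 * d 3) * h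

theorem uL_add (x d d' : R4) : uL x (d + d') = uL x d + uL x d' := by
  ext i
  fin_cases i <;>
  simp only [uL, PiLp.toLp_apply, Matrix.cons_val_zero, Matrix.cons_val_one,
    Matrix.cons_val, PiLp.add_apply, Fin.zero_eta, Fin.mk_one, Fin.reduceFinMk] <;> ring

theorem uR_add (x d d' : R4) : uR x (d + d') = uR x d + uR x d' := by
  ext i
  fin_cases i <;>
  simp only [uR, PiLp.toLp_apply, Matrix.cons_val_zero, Matrix.cons_val_one,
    Matrix.cons_val, PiLp.add_apply, Fin.zero_eta, Fin.mk_one, Fin.reduceFinMk] <;> ring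

theorem uL_smul (x : R4) (c : ℝ) (d : R4) : uL x (c • d) = c • uL x d := by
  ext i
  fin_cases i <;>
  simp only [uL, PiLp.toLp_apply, Matrix.cons_val_zero, Matrix.cons_val_one,
    Matrix.cons_val, PiLp.smul_apply, smul_eq_mul, Fin.zero_eta, Fin.mk_one,
    Fin.reduceFinMk] <;> ring

theorem uR_smul (x : R4) (c : ℝ) (d : R4) : uR x (c • d) = c • uR x d := by
  ext i
  fin_cases i <;>
  simp only [uR, PiLp.toLp_apply, Matrix.cons_val_zero, Matrix.cons_val_one,
    Matrix.cons_val, PiLp.smul_apply, smul_eq_mul, Fin.zero_eta, Fin.mk_one,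
    Fin.reduceFinMk] <;> ring

/-- `uL x` as a linear map -/
def uLl (x : R4) : R4 →ₗ[ℝ] R3 where
  toFun := uL x
  map_add' := uL_add x
  map_smul' := uL_smul x

/-- `uR x` as a linear map -/
def uRl (x : R4) : R4 →ₗ[ℝ] R3 where
  toFun := uR x
  map_add' := uR_add x
  map_smul' := uR_smul x

section
variable {V E : Type} [Fintype E] [DecidableEq V] {G : MGraph V E} {p : V → R4}
  {dir : E → R4} {len : E → ℝ}

theorem flow_aux (F : R4 → R4 →ₗ[ℝ] R3)
    (hF : ∀ x d t, F (geo x d t) (vel x d t) = F x d)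
    (hn : ∀ x d, ‖F x d‖ ^ 2 = ‖x‖ ^ 2 * ‖d‖ ^ 2 - ⟪x, d⟫ ^ 2)
    (h : IsBalanced G p dir len) : IsUnitFlow G (fun e => F (p (G.src e)) (dir e)) := by
  constructor
  · intro e
    have h1 := hn (p (G.src e)) (dir e)
    rw [h.on_sphere, h.unit_dir, h.tangent] at h1
    have h2 : ‖F (p (G.src e)) (dir e)‖ ^ 2 = 1 := by rw [h1]; norm_num
    exact (pow_eq_one_iff_of_nonneg (norm_nonneg _) two_ne_zero).1 h2
  · intro v
    have h1 := congrArg (F (p v)) (h.balanced v)
    rw [map_add, map_zero, map_sum, map_sum] at h1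
    have h2 : ∑ e with G.src e = v, F (p v) (dir e) =
        ∑ e with G.src e = v, F (p (G.src e)) (dir e) := by
      apply Finset.sum_congr rfl
      intro e he
      rw [(Finset.mem_filter.1 he).2]
    have h3 : ∑ e with G.tgt e = v, F (p v) (-vel (p (G.src e)) (dir e) (len e)) =
        -∑ e with G.tgt e = v, F (p (G.src e)) (dir e) := by
      rw [← Finset.sum_neg_distrib]
      apply Finset.sum_congr rfl
      intro e he
      rw [map_neg, ← (Finset.mem_filter.1 he).2, ← h.ends e, hF]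
    rw [h2, h3] at h1
    exact eq_of_sub_eq_zero (by rw [sub_eq_add_neg]; exact h1)

theorem flow_uL (h : IsBalanced G p dir len) :
    IsUnitFlow G (fun e => uL (p (G.src e)) (dir e)) :=
  flow_aux uLl uL_geo norm_uL h

theorem flow_uR (h : IsBalanced G p dir len) :
    IsUnitFlow G (fun e => uR (p (G.src e)) (dir e)) :=
  flow_aux uRl uR_geo norm_uR h

open Classical in
/-- the sign with which an edge leaves `S` -/
noncomputable def sgn (G : MGraph V E) (S : Set V) (e : E) : ℝ :=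
  (if G.src e ∈ S then 1 else 0) - (if G.tgt e ∈ S then 1 else 0)

theorem sgn_cut (S : Set V) (e : E) (he : e ∈ cut G S) : sgn G S e = 1 ∨ sgn G S e = -1 := by
  unfold cut at he
  unfold sgn
  by_cases h1 : G.src e ∈ S <;> by_cases h2 : G.tgt e ∈ S <;> simp_all

theorem sgn_not (S : Set V) (e : E) (he : e ∉ cut G S) : sgn G S e = 0 := by
  unfold cut at he
  unfold sgn
  by_cases h1 : G.src e ∈ S <;> by_cases h2 : G.tgt e ∈ S <;> simp_all

theorem cut_sum [Fintype V] {u : E → R3} (hu : IsUnitFlow G u) (S : Set V) :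
    ∑ e, sgn G S e • u e = 0 := by
  classical
  have h1 : ∑ v ∈ Finset.univ.filter (fun v => v ∈ S),
      (∑ e with G.src e = v, u e - ∑ e with G.tgt e = v, u e) = 0 := by
    apply Finset.sum_eq_zero
    intro v _
    rw [hu.2 v, sub_self]
  rw [Finset.sum_sub_distrib] at h1
  have h2 : ∀ f : E → V, ∑ v ∈ Finset.univ.filter (fun v => v ∈ S), ∑ e with f e = v, u e =
      ∑ e, (if f e ∈ S then (1 : ℝ) else 0) • u e := by
    intro f
    rw [Finset.sum_filter]
    have : ∀ v, (if v ∈ S then ∑ e with f e = v, u e else 0) =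
        ∑ e, (if f e = v then (if f e ∈ S then (1 : ℝ) else 0) • u e else 0) := by
      intro v
      rw [← Finset.sum_filter]
      split_ifs with hv
      · apply Finset.sum_congr rfl
        intro e he
        rw [(Finset.mem_filter.1 he).2, if_pos hv, one_smul]
      · symm
        apply Finset.sum_eq_zero
        intro e he
        rw [(Finset.mem_filter.1 he).2, if_neg hv, zero_smul]
    rw [Finset.sum_congr rfl (fun v _ => this v), Finset.sum_comm]
    apply Finset.sum_congr rfl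
    intro e _
    rw [Finset.sum_ite_eq]; simp
  rw [h2, h2, ← Finset.sum_sub_distrib] at h1
  rw [← h1]
  apply Finset.sum_congr rfl
  intro e _
  rw [sgn, sub_smul]

end

/-- Pluecker coordinates of the plane of `x`, `d` -/
def pl (x d : R4) (i j : Fin 4) : ℝ := x i * d j - x j * d i

theorem det4 (x d x' d' : R4) :
    (Matrix.of ![(fun i => x i), (fun i => d i), (fun i => x' i), (fun i => d' i)] : Matrix (Fin 4) (Fin 4) ℝ).det =
    pl x d 0 1 * pl x' d' 2 3 - pl x d 0 2 * pl x' d' 1 3 + pl x d 0 3 * pl x' d' 1 2 +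
    pl x d 1 2 * pl x' d' 0 3 - pl x d 1 3 * pl x' d' 0 2 + pl x d 2 3 * pl x' d' 0 1 := by
  simp [Matrix.det_succ_row_zero, Fin.sum_univ_succ, pl, Fin.succAbove]
  ring

theorem mem_plane (x d y : R4) (hx : ‖x‖ = 1) (hd : ‖d‖ = 1) (hxd : ⟪x, d⟫ = 0)
    (hW : ∀ i j k, y i * pl x d j k - y j * pl x d i k + y k * pl x d i j = 0) :
    y ∈ Submodule.span ℝ {x, d} := by
  have ha := normsq4 x
  have hb := normsq4 d
  rw [hx] at ha
  rw [hd] at hb
  rw [inner4] at hxd
  have e1 := hW 0 1 2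
  have e2 := hW 0 1 3
  have e3 := hW 0 2 3
  have e4 := hW 1 2 3
  simp only [pl] at e1 e2 e3 e4
  have : y = ⟪x, y⟫ • x + ⟪d, y⟫ • d := by
    rw [inner4, inner4]
    ext i
    fin_cases i <;> simp only [PiLp.add_apply, PiLp.smul_apply, smul_eq_mul, Fin.zero_eta,
      Fin.mk_one, Fin.reduceFinMk]
    · linear_combination (x 1 * d 2 - x 2 * d 1) * e1 + (x 1 * d 3 - x 3 * d 1) * e2 + (x 2 * d 3 - x 3 * d 2) * e3
        + (y 0 - (x 0 * y 0 + x 1 * y 1 + x 2 * y 2 + x 3 * y 3) * x 0) * hb + ((d 0 ^ 2 + d 1 ^ 2 + d 2 ^ 2 + d 3 ^ 2) * y 0 - (d 0 * y 0 + d 1 * y 1 + d 2 * y 2 + d 3 * y 3) * d 0) * ha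
        + ((x 0 * d 0 + x 1 * d 1 + x 2 * d 2 + x 3 * d 3) * y 0 - (x 0 * y 0 + x 1 * y 1 + x 2 * y 2 + x 3 * y 3) * d 0 - (d 0 * y 0 + d 1 * y 1 + d 2 * y 2 + d 3 * y 3) * x 0) * hxd
    · linear_combination (-(x 0 * d 2 - x 2 * d 0)) * e1 - (x 0 * d 3 - x 3 * d 0) * e2 + (x 2 * d 3 - x 3 * d 2) * e4
        + (y 1 - (x 0 * y 0 + x 1 * y 1 + x 2 * y 2 + x 3 * y 3) * x 1) * hb + ((d 0 ^ 2 + d 1 ^ 2 + d 2 ^ 2 + d 3 ^ 2) * y 1 - (d 0 * y 0 + d 1 * y 1 + d 2 * y 2 + d 3 * y 3) * d 1) * ha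
        + ((x 0 * d 0 + x 1 * d 1 + x 2 * d 2 + x 3 * d 3) * y 1 - (x 0 * y 0 + x 1 * y 1 + x 2 * y 2 + x 3 * y 3) * d 1 - (d 0 * y 0 + d 1 * y 1 + d 2 * y 2 + d 3 * y 3) * x 1) * hxd
    · linear_combination (x 0 * d 1 - x 1 * d 0) * e1 - (x 0 * d 3 - x 3 * d 0) * e3 - (x 1 * d 3 - x 3 * d 1) * e4
        + (y 2 - (x 0 * y 0 + x 1 * y 1 + x 2 * y 2 + x 3 * y 3) * x 2) * hb + ((d 0 ^ 2 + d 1 ^ 2 + d 2 ^ 2 + d 3 ^ 2) * y 2 - (d 0 * y 0 + d 1 * y 1 + d 2 * y 2 + d 3 * y 3) * d 2) * ha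
        + ((x 0 * d 0 + x 1 * d 1 + x 2 * d 2 + x 3 * d 3) * y 2 - (x 0 * y 0 + x 1 * y 1 + x 2 * y 2 + x 3 * y 3) * d 2 - (d 0 * y 0 + d 1 * y 1 + d 2 * y 2 + d 3 * y 3) * x 2) * hxd
    · linear_combination (x 0 * d 1 - x 1 * d 0) * e2 + (x 0 * d 2 - x 2 * d 0) * e3 + (x 1 * d 2 - x 2 * d 1) * e4
        + (y 3 - (x 0 * y 0 + x 1 * y 1 + x 2 * y 2 + x 3 * y 3) * x 3) * hb + ((d 0 ^ 2 + d 1 ^ 2 + d 2 ^ 2 + d 3 ^ 2) * y 3 - (d 0 * y 0 + d 1 * y 1 + d 2 * y 2 + d 3 * y 3) * d 3) * ha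
        + ((x 0 * d 0 + x 1 * d 1 + x 2 * d 2 + x 3 * d 3) * y 3 - (x 0 * y 0 + x 1 * y 1 + x 2 * y 2 + x 3 * y 3) * d 3 - (d 0 * y 0 + d 1 * y 1 + d 2 * y 2 + d 3 * y 3) * x 3) * hxd
  rw [this]
  exact Submodule.add_mem _ (Submodule.smul_mem _ _ (Submodule.subset_span (by simp)))
    (Submodule.smul_mem _ _ (Submodule.subset_span (by simp)))

theorem pl_self (x d y : R4) (hy : y ∈ Submodule.span ℝ {x, d}) (i j k : Fin 4) :
    y i * pl x d j k - y j * pl x d i k + y k * pl x d i j = 0 := by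
  obtain ⟨a, b, rfl⟩ := Submodule.mem_span_pair.1 hy
  simp only [pl, PiLp.add_apply, PiLp.smul_apply, smul_eq_mul]
  ring

theorem pl_coord (x d : R4) :
    pl x d 0 1 = (uL x d 0 + uR x d 0) / 2 ∧ pl x d 2 3 = (uL x d 0 - uR x d 0) / 2 ∧
    pl x d 0 2 = (uL x d 1 + uR x d 1) / 2 ∧ pl x d 1 3 = (uR x d 1 - uL x d 1) / 2 ∧
    pl x d 0 3 = (uL x d 2 + uR x d 2) / 2 ∧ pl x d 1 2 = (uL x d 2 - uR x d 2) / 2 := by
  refine ⟨?_, ?_, ?_, ?_, ?_, ?_⟩ <;>
  simp only [pl, uL, uR, PiLp.toLp_apply, Matrix.cons_val_zero, Matrix.cons_val_one,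
    Matrix.cons_val] <;> ring

theorem pl_symm (x d : R4) (i j : Fin 4) : pl x d i j = - pl x d j i := by
  unfold pl; ring

section
variable {V E : Type} [Fintype V] [Fintype E] [DecidableEq V] {G : MGraph V E} {p : V → R4}
  {dir : E → R4} {len : E → ℝ}

theorem cut_pl (h : IsBalanced G p dir len) (S : Set V) (i j : Fin 4) :
    ∑ e, sgn G S e * pl (p (G.src e)) (dir e) i j = 0 := by
  have hL := cut_sum (flow_uL h) S
  have hR := cut_sum (flow_uR h) S
  have hL' : ∀ k : Fin 3, ∑ e, sgn G S e * uL (p (G.src e)) (dir e) k = 0 := by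
    intro k
    have := congrArg (fun w : R3 => w k) hL
    simpa [WithLp.ofLp_sum, Finset.sum_apply] using this
  have hR' : ∀ k : Fin 3, ∑ e, sgn G S e * uR (p (G.src e)) (dir e) k = 0 := by
    intro k
    have := congrArg (fun w : R3 => w k) hR
    simpa [WithLp.ofLp_sum, Finset.sum_apply] using this
  have hlin : ∀ (a b : ℝ) (k : Fin 3) (f : E → ℝ),
      (∀ e, f e = a * uL (p (G.src e)) (dir e) k + b * uR (p (G.src e)) (dir e) k) →
      ∑ e, sgn G S e * f e = 0 := by
    intro a b k f hf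
    have : ∑ e, sgn G S e * f e = a * ∑ e, sgn G S e * uL (p (G.src e)) (dir e) k +
        b * ∑ e, sgn G S e * uR (p (G.src e)) (dir e) k := by
      rw [Finset.mul_sum, Finset.mul_sum, ← Finset.sum_add_distrib]
      apply Finset.sum_congr rfl
      intro e _
      rw [hf e]; ring
    rw [this, hL' k, hR' k]; ring
  have h01 := hlin (1/2) (1/2) 0 (fun e => pl (p (G.src e)) (dir e) 0 1)
    (fun e => by rw [(pl_coord _ _).1]; ring)
  have h23 := hlin (1/2) (-1/2) 0 (fun e => pl (p (G.src e)) (dir e) 2 3)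
    (fun e => by rw [(pl_coord _ _).2.1]; ring)
  have h02 := hlin (1/2) (1/2) 1 (fun e => pl (p (G.src e)) (dir e) 0 2)
    (fun e => by rw [(pl_coord _ _).2.2.1]; ring)
  have h13 := hlin (-1/2) (1/2) 1 (fun e => pl (p (G.src e)) (dir e) 1 3)
    (fun e => by rw [(pl_coord _ _).2.2.2.1]; ring)
  have h03 := hlin (1/2) (1/2) 2 (fun e => pl (p (G.src e)) (dir e) 0 3)
    (fun e => by rw [(pl_coord _ _).2.2.2.2.1]; ring)
  have h12 := hlin (1/2) (-1/2) 2 (fun e => pl (p (G.src e)) (dir e) 1 2)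
    (fun e => by rw [(pl_coord _ _).2.2.2.2.2]; ring)
  have hneg : ∀ a b : Fin 4, ∑ e, sgn G S e * pl (p (G.src e)) (dir e) a b = 0 →
      ∑ e, sgn G S e * pl (p (G.src e)) (dir e) b a = 0 := by
    intro a b hab
    rw [← neg_eq_zero, ← hab, ← Finset.sum_neg_distrib]
    apply Finset.sum_congr rfl
    intro e _
    rw [pl_symm _ _ b a]; ring
  have hdiag : ∀ a : Fin 4, ∑ e, sgn G S e * pl (p (G.src e)) (dir e) a a = 0 := by
    intro a
    apply Finset.sum_eq_zero
    intro e _
    unfold pl; ring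
  fin_cases i <;> fin_cases j <;>
    first
    | exact hdiag _
    | exact h01 | exact h02 | exact h03 | exact h12 | exact h13 | exact h23
    | exact hneg _ _ h01 | exact hneg _ _ h02 | exact hneg _ _ h03
    | exact hneg _ _ h12 | exact hneg _ _ h13 | exact hneg _ _ h23

theorem pl_ne (x d : R4) (hx : ‖x‖ = 1) (hd : ‖d‖ = 1) (hxd : ⟪x, d⟫ = 0)
    (h : ∀ i j, pl x d i j = 0) : False := by
  have h1 := mem_plane d x d hd hx (by rw [real_inner_comm]; exact hxd) (by
    intro i j k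
    rw [pl_symm d x, pl_symm d x, pl_symm d x]
    unfold pl; ring)
  have h2 := norm_uL x d
  rw [hx, hd, hxd, normsq3] at h2
  simp only [pl] at h
  have e1 := h 0 1
  have e2 := h 2 3
  have e3 := h 0 2
  have e4 := h 1 3
  have e5 := h 0 3
  have e6 := h 1 2
  simp only [uL, PiLp.toLp_apply, Matrix.cons_val_zero, Matrix.cons_val_one,
    Matrix.cons_val] at h2
  have f1 : -x 1 * d 0 + x 0 * d 1 - x 3 * d 2 + x 2 * d 3 = 0 := by linear_combination e1 + e2
  have f2 : -x 2 * d 0 + x 3 * d 1 + x 0 * d 2 - x 1 * d 3 = 0 := by linear_combination e3 - e4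
  have f3 : -x 3 * d 0 - x 2 * d 1 + x 1 * d 2 + x 0 * d 3 = 0 := by linear_combination e5 + e6
  rw [f1, f2, f3] at h2
  norm_num at h2

end

theorem common (x d x' d' : R4) (hx : ‖x‖ = 1) (hd : ‖d‖ = 1) (hxd : ⟪x, d⟫ = 0)
    (hx' : ‖x'‖ = 1) (hd' : ‖d'‖ = 1) (hxd' : ⟪x', d'⟫ = 0)
    (hom : pl x d 0 1 * pl x' d' 2 3 - pl x d 0 2 * pl x' d' 1 3 + pl x d 0 3 * pl x' d' 1 2 +
      pl x d 1 2 * pl x' d' 0 3 - pl x d 1 3 * pl x' d' 0 2 + pl x d 2 3 * pl x' d' 0 1 = 0) :
    ∃ y : R4, ‖y‖ = 1 ∧ y ∈ plane x d ∧ y ∈ plane x' d' := by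
  rw [← det4] at hom
  obtain ⟨v, hv, hv0⟩ := Matrix.exists_vecMul_eq_zero_iff.2 hom
  have hv1 : ∀ j : Fin 4, v 0 * x j + v 1 * d j + v 2 * x' j + v 3 * d' j = 0 := by
    intro j
    have := congrFun hv0 j
    simp only [Matrix.vecMul, dotProduct, Fin.sum_univ_four, Matrix.of_apply, Pi.zero_apply] at this
    simpa using this
  have hxx : ⟪x, x⟫ = 1 := by rw [real_inner_self_eq_norm_sq, hx]; norm_num
  have hdd : ⟪d, d⟫ = 1 := by rw [real_inner_self_eq_norm_sq, hd]; norm_num
  have hxx' : ⟪x', x'⟫ = 1 := by rw [real_inner_self_eq_norm_sq, hx']; norm_num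
  have hdd' : ⟪d', d'⟫ = 1 := by rw [real_inner_self_eq_norm_sq, hd']; norm_num
  have hdx : ⟪d, x⟫ = 0 := by rw [real_inner_comm]; exact hxd
  have hdx' : ⟪d', x'⟫ = 0 := by rw [real_inner_comm]; exact hxd'
  have heq : v 0 • x + v 1 • d = -(v 2 • x' + v 3 • d') := by
    ext j
    simp only [PiLp.add_apply, PiLp.smul_apply, smul_eq_mul, PiLp.neg_apply]
    linear_combination hv1 j
  have hne : v 0 • x + v 1 • d ≠ 0 := by
    intro h0
    apply hv
    have h0' : v 2 • x' + v 3 • d' = 0 := by rw [h0] at heq; exact neg_eq_zero.1 heq.symm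
    have a0 : v 0 = 0 := by
      have := congrArg (fun w => ⟪x, w⟫) h0
      simp only [inner_add_right, inner_smul_right, hxx, hxd, inner_zero_right] at this
      linarith
    have a1 : v 1 = 0 := by
      have := congrArg (fun w => ⟪d, w⟫) h0
      simp only [inner_add_right, inner_smul_right, hdd, hdx, inner_zero_right] at this
      linarith
    have a2 : v 2 = 0 := by
      have := congrArg (fun w => ⟪x', w⟫) h0'
      simp only [inner_add_right, inner_smul_right, hxx', hxd', inner_zero_right] at this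
      linarith
    have a3 : v 3 = 0 := by
      have := congrArg (fun w => ⟪d', w⟫) h0'
      simp only [inner_add_right, inner_smul_right, hdd', hdx', inner_zero_right] at this
      linarith
    funext j
    fin_cases j
    · exact a0
    · exact a1
    · exact a2
    · exact a3
  refine ⟨‖v 0 • x + v 1 • d‖⁻¹ • (v 0 • x + v 1 • d), ?_, ?_, ?_⟩
  · rw [norm_smul, norm_inv, norm_norm, inv_mul_cancel₀ (norm_ne_zero_iff.2 hne)]
  · exact Submodule.smul_mem _ _ (Submodule.mem_span_pair.2 ⟨v 0, v 1, rfl⟩)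
  · rw [heq]
    exact Submodule.smul_mem _ _ (Submodule.neg_mem _ (Submodule.mem_span_pair.2 ⟨v 2, v 3, rfl⟩))

/-- Let a balanced geodesic net on the round 3-sphere be modelled on the finite multigraph `G`
(vertices of any degree, crossings allowed). Then `G` has a unit vector flow in `ℝ³`; no edge of
`G` is a bridge; the two edges of an edge cut of size two lie on one great circle; and the great
circles of the three edges of an edge cut of size three have a common point. -/
theorem result {V E : Type} [Fintype V] [Fintype E] [DecidableEq V] (G : MGraph V E)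
    (p : V → R4) (dir : E → R4) (len : E → ℝ) (h : IsBalanced G p dir len) :
    (∃ u : E → R3, IsUnitFlow G u) ∧
    (∀ (S : Set V) (e : E), cut G S ≠ {e}) ∧
    (∀ (S : Set V) (e f : E), e ≠ f → cut G S = {e, f} →
      plane (p (G.src e)) (dir e) = plane (p (G.src f)) (dir f)) ∧
    (∀ (S : Set V) (e f g : E), e ≠ f → e ≠ g → f ≠ g → cut G S = {e, f, g} →
      ∃ x : R4, ‖x‖ = 1 ∧ x ∈ plane (p (G.src e)) (dir e) ∧ x ∈ plane (p (G.src f)) (dir f) ∧
        x ∈ plane (p (G.src g)) (dir g)) := by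
  classical
  have hx : ∀ e, ‖p (G.src e)‖ = 1 := fun e => h.on_sphere _
  have hd := h.unit_dir
  have hxd := h.tangent
  refine ⟨⟨_, flow_uL h⟩, ?_, ?_, ?_⟩
  · intro S e hS
    have hs := sgn_cut S e (by rw [hS]; rfl)
    apply pl_ne _ _ (hx e) (hd e) (hxd e)
    intro i j
    have h1 := cut_pl h S i j
    rw [Finset.sum_eq_single e] at h1
    · rcases hs with hs | hs <;> rw [hs] at h1 <;> linarith
    · intro f _ hf
      rw [sgn_not S f (by rw [hS]; exact hf), zero_mul]
    · intro hcon; exact absurd (Finset.mem_univ e) hcon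
  · intro S e f hef hS
    have hse := sgn_cut S e (by rw [hS]; simp)
    have hsf := sgn_cut S f (by rw [hS]; simp)
    have hrel : ∀ i j, sgn G S e * pl (p (G.src e)) (dir e) i j +
        sgn G S f * pl (p (G.src f)) (dir f) i j = 0 := by
      intro i j
      have h1 := cut_pl h S i j
      rw [← Finset.sum_subset (Finset.subset_univ ({e, f} : Finset E))] at h1
      · rw [Finset.sum_pair hef] at h1; exact h1
      · intro g _ hg
        rw [sgn_not S g (by rw [hS]; simpa using hg), zero_mul]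
    have key : ∀ (a b : E) (c : ℝ), (∀ i j, pl (p (G.src b)) (dir b) i j =
        c * pl (p (G.src a)) (dir a) i j) → c ^ 2 = 1 →
        plane (p (G.src b)) (dir b) ≤ plane (p (G.src a)) (dir a) := by
      intro a b c hc hc2 y hy
      apply mem_plane _ _ _ (hx a) (hd a) (hxd a)
      intro i j k
      have h2 := pl_self _ _ _ hy i j k
      rw [hc, hc, hc] at h2
      have h3 : c * (y i * pl (p (G.src a)) (dir a) j k - y j * pl (p (G.src a)) (dir a) i k +
        y k * pl (p (G.src a)) (dir a) i j) = 0 := by linear_combination h2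
      have hc0 : c ≠ 0 := by rintro rfl; norm_num at hc2
      exact (mul_eq_zero.1 h3).resolve_left hc0
    have hse2 : sgn G S e ^ 2 = 1 := by rcases hse with h1 | h1 <;> rw [h1] <;> norm_num
    have hsf2 : sgn G S f ^ 2 = 1 := by rcases hsf with h1 | h1 <;> rw [h1] <;> norm_num
    apply le_antisymm
    · refine key f e (-(sgn G S e * sgn G S f)) ?_ ?_
      · intro i j
        linear_combination sgn G S e * hrel i j - pl (p (G.src e)) (dir e) i j * hse2
      · linear_combination sgn G S f ^ 2 * hse2 + hsf2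
    · refine key e f (-(sgn G S e * sgn G S f)) ?_ ?_
      · intro i j
        linear_combination sgn G S f * hrel i j - pl (p (G.src f)) (dir f) i j * hsf2
      · linear_combination sgn G S f ^ 2 * hse2 + hsf2
  · intro S e f g hef heg hfg hS
    have hse := sgn_cut S e (by rw [hS]; simp)
    have hsf := sgn_cut S f (by rw [hS]; simp)
    have hsg := sgn_cut S g (by rw [hS]; simp)
    have hrel : ∀ i j, sgn G S e * pl (p (G.src e)) (dir e) i j +
        sgn G S f * pl (p (G.src f)) (dir f) i j +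
        sgn G S g * pl (p (G.src g)) (dir g) i j = 0 := by
      intro i j
      have h1 := cut_pl h S i j
      rw [← Finset.sum_subset (Finset.subset_univ ({e, f, g} : Finset E))] at h1
      · rw [Finset.sum_insert (by simp [hef, heg]), Finset.sum_pair hfg] at h1
        linarith
      · intro a _ ha
        rw [sgn_not S a (by rw [hS]; simpa using ha), zero_mul]
    have hsg2 : sgn G S g ^ 2 = 1 := by rcases hsg with h1 | h1 <;> rw [h1] <;> norm_num
    have hsef : sgn G S e * sgn G S f ≠ 0 := by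
      rcases hse with h1 | h1 <;> rcases hsf with h2 | h2 <;> rw [h1, h2] <;> norm_num
    set σ := sgn G S e
    set τ := sgn G S f
    set ρ := sgn G S g
    obtain ⟨y, hy1, hy2, hy3⟩ := common _ _ _ _ (hx e) (hd e) (hxd e) (hx f) (hd f) (hxd f) (by
      have q : ∀ a : E, pl (p (G.src a)) (dir a) 0 1 * pl (p (G.src a)) (dir a) 2 3 -
          pl (p (G.src a)) (dir a) 0 2 * pl (p (G.src a)) (dir a) 1 3 +
          pl (p (G.src a)) (dir a) 0 3 * pl (p (G.src a)) (dir a) 1 2 = 0 := by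
        intro a; unfold pl; ring
      have qe := q e
      have qf := q f
      have qg := q g
      have r01 := hrel 0 1
      have r23 := hrel 2 3
      have r02 := hrel 0 2
      have r13 := hrel 1 3
      have r03 := hrel 0 3
      have r12 := hrel 1 2
      have h9 : σ * τ * (pl (p (G.src e)) (dir e) 0 1 * pl (p (G.src f)) (dir f) 2 3 -
          pl (p (G.src e)) (dir e) 0 2 * pl (p (G.src f)) (dir f) 1 3 +
          pl (p (G.src e)) (dir e) 0 3 * pl (p (G.src f)) (dir f) 1 2 +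
          pl (p (G.src e)) (dir e) 1 2 * pl (p (G.src f)) (dir f) 0 3 -
          pl (p (G.src e)) (dir e) 1 3 * pl (p (G.src f)) (dir f) 0 2 +
          pl (p (G.src e)) (dir e) 2 3 * pl (p (G.src f)) (dir f) 0 1) = 0 := by
        linear_combination (-σ ^ 2) * qe - τ ^ 2 * qf + ρ ^ 2 * qg
          + (σ * pl (p (G.src e)) (dir e) 2 3 + τ * pl (p (G.src f)) (dir f) 2 3) * r01
          - ρ * pl (p (G.src g)) (dir g) 0 1 * r23
          - (σ * pl (p (G.src e)) (dir e) 1 3 + τ * pl (p (G.src f)) (dir f) 1 3) * r02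
          + ρ * pl (p (G.src g)) (dir g) 0 2 * r13
          + (σ * pl (p (G.src e)) (dir e) 1 2 + τ * pl (p (G.src f)) (dir f) 1 2) * r03
          - ρ * pl (p (G.src g)) (dir g) 0 3 * r12
      exact (mul_eq_zero.1 h9).resolve_left hsef)
    refine ⟨y, hy1, hy2, hy3, ?_⟩
    apply mem_plane _ _ _ (hx g) (hd g) (hxd g)
    intro i j k
    have h1 := pl_self _ _ _ hy2 i j k
    have h2 := pl_self _ _ _ hy3 i j k
    have h3 : ρ * (y i * pl (p (G.src g)) (dir g) j k - y j * pl (p (G.src g)) (dir g) i k +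
        y k * pl (p (G.src g)) (dir g) i j) = 0 := by
      linear_combination y i * hrel j k - y j * hrel i k + y k * hrel i j - σ * h1 - τ * h2
    have hρ : ρ ≠ 0 := by intro h0; rw [h0] at hsg2; norm_num at hsg2
    exact (mul_eq_zero.1 h3).resolve_left hρ

end Pool.Agent.Results.MP_a226eb_gt.UnitFlow
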